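import Pool.Agent.N303.LS.Stm5
import Pool.Agent.N262.LS.LL

/-!
# Project LT (helper303), leaf LLG: the local estimate for general Schwartz kernels (helper170)
-/

set_option autoImplicit false

namespace Pool.Agent.N170.LS

open MeasureTheory Pool.Agent.N303.LS Pool.Agent.N492.LS Pool.Agent.N262.LS
open scoped ENNReal FourierTransform RealInnerProductSpace SchwartzMap ComplexConjugate

section

variable {d : ℕ}

/-- the (conjugate) Fourier transform of an integrable function -/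
noncomputable def bw (H : E d → ℂ) (ζ : E d) : ℂ := ∫ u, H u * conj (e ⟪u, ζ⟫)

theorem cont_bw {H : E d → ℂ} (hH : Integrable H) : Continuous (bw H) := by
  refine continuous_of_dominated (F := fun ζ u => H u * conj (e ⟪u, ζ⟫)) (bound := fun u => ‖H u‖)
    ?_ ?_ hH.norm ?_
  · intro ζ
    exact hH.aestronglyMeasurable.mul
      (Complex.continuous_conj.comp (cont_el ζ)).aestronglyMeasurable
  · intro ζ
    exact Filter.Eventually.of_forall fun u => by
      rw [norm_mul, RCLike.norm_conj, norm_e, mul_one]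
  · exact Filter.Eventually.of_forall fun u =>
      continuous_const.mul (Complex.continuous_conj.comp (cont_er u))

theorem bd_bw (H : E d → ℂ) (ζ : E d) : ‖bw H ζ‖ ≤ ∫ u, ‖H u‖ := by
  unfold bw
  refine (norm_integral_le_integral_norm _).trans (le_of_eq ?_)
  refine integral_congr_ae (Filter.Eventually.of_forall fun u => ?_)
  show ‖H u * conj (e ⟪u, ζ⟫)‖ = ‖H u‖
  rw [norm_mul, RCLike.norm_conj, norm_e, mul_one]

/-- the formula for one kernel -/
theorem formW (k : 𝓢(E d, ℂ)) {H : E d → ℂ} (hH : Integrable H) (x p : E d) :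
    ∫ u, k (x - u) * e ⟪x - u, p⟫ * H u =
      ∫ ξ, 𝓕 (k : E d → ℂ) ξ * (e ⟪x, ξ + p⟫ * bw H (ξ + p)) := by
  have h3 : ∫ u, k (x - u) * e ⟪x - u, p⟫ * H u =
      ∫ u, ∫ ξ, (e ⟪x - u, ξ⟫ * e ⟪x - u, p⟫) * (H u * 𝓕 (k : E d → ℂ) ξ) := by
    refine integral_congr_ae (Filter.Eventually.of_forall fun u => ?_)
    show k (x - u) * e ⟪x - u, p⟫ * H u = _
    rw [inversion k (x - u), mul_assoc, ← integral_mul_const]
    refine integral_congr_ae (Filter.Eventually.of_forall fun ξ => ?_)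
    show e ⟪x - u, ξ⟫ * 𝓕 (k : E d → ℂ) ξ * (e ⟪x - u, p⟫ * H u) =
      (e ⟪x - u, ξ⟫ * e ⟪x - u, p⟫) * (H u * 𝓕 (k : E d → ℂ) ξ)
    ring
  rw [h3, integral_integral_swap]
  · refine integral_congr_ae (Filter.Eventually.of_forall fun ξ => ?_)
    show ∫ u, (e ⟪x - u, ξ⟫ * e ⟪x - u, p⟫) * (H u * 𝓕 (k : E d → ℂ) ξ) =
      𝓕 (k : E d → ℂ) ξ * (e ⟪x, ξ + p⟫ * bw H (ξ + p))
    unfold bw
    rw [← integral_const_mul, ← integral_const_mul]
    refine integral_congr_ae (Filter.Eventually.of_forall fun u => ?_)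
    show (e ⟪x - u, ξ⟫ * e ⟪x - u, p⟫) * (H u * 𝓕 (k : E d → ℂ) ξ) =
      𝓕 (k : E d → ℂ) ξ * (e ⟪x, ξ + p⟫ * (H u * conj (e ⟪u, ξ + p⟫)))
    have h4 : e ⟪x - u, ξ⟫ * e ⟪x - u, p⟫ = e ⟪x, ξ + p⟫ * conj (e ⟪u, ξ + p⟫) := by
      rw [conj_e, ← e_add, ← e_add, ← inner_add_right, inner_sub_left, sub_eq_add_neg]
    rw [h4]
    ring
  · have h4 : Integrable (fun z : E d × E d => H z.1 * 𝓕 (k : E d → ℂ) z.2)
        ((volume : Measure (E d)).prod volume) := hH.mul_prod (int_fK k)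
    refine int_bdd (φ := fun z : E d × E d => e ⟪x - z.1, z.2⟫ * e ⟪x - z.1, p⟫) (c := 1) h4 ?_ ?_
    · refine Continuous.aestronglyMeasurable ?_
      exact (cont_e.comp ((continuous_const.sub continuous_fst).inner continuous_snd)).mul
        (cont_e.comp ((continuous_const.sub continuous_fst).inner continuous_const))
    · intro z
      rw [norm_mul, norm_e, norm_e, one_mul]

/-- the weight -/
noncomputable def wB (B : ℕ) (z u : E d) : ℂ := (((1 + ‖u - z‖ ^ 2) ^ B : ℝ) : ℂ)⁻¹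

theorem wB_cont (B : ℕ) (z : E d) : Continuous (wB B z) := by
  unfold wB
  refine Continuous.inv₀ (by fun_prop) fun u => ?_
  rw [Complex.ofReal_ne_zero]
  positivity

theorem wB_int {B : ℕ} (hB : d < 2 * B) (z : E d) : Integrable (wB B z) := by
  have h := integrable_rpow_neg_one_add_norm_sq (E := E d) (μ := volume) (r := ((2 * B : ℕ) : ℝ))
    (by rw [finrank_euclideanSpace_fin]; exact_mod_cast hB)
  have h1 := (h.comp_sub_right z).ofReal (𝕜 := ℂ)
  refine h1.congr (Filter.Eventually.of_forall fun u => ?_)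
  show (((1 + ‖u - z‖ ^ 2) ^ (-((2 * B : ℕ) : ℝ) / 2) : ℝ) : ℂ) = wB B z u
  unfold wB
  rw [← Complex.ofReal_inv]
  congr 1
  have h2 : -((2 * B : ℕ) : ℝ) / 2 = -(B : ℝ) := by push_cast; ring
  rw [h2, Real.rpow_neg (by positivity), Real.rpow_natCast]

/-- one-kernel operator -/
noncomputable def op (k : 𝓢(E d, ℂ)) (A : Finset (Fin d → ℤ)) (α : (Fin d → ℤ) → ℂ) (H : E d → ℂ)
    (x : E d) : ℂ :=
  ∫ ξ, 𝓕 (k : E d → ℂ) ξ * (e ⟪x, ξ⟫ * tp A (fun m => α m * bw H (ξ + pt m)) x)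

theorem formWA (k : 𝓢(E d, ℂ)) {H : E d → ℂ} (hH : Integrable H) (x : E d)
    (A : Finset (Fin d → ℤ)) (α : (Fin d → ℤ) → ℂ) :
    ∑ m ∈ A, α m * ∫ u, k (x - u) * e ⟪x - u, pt m⟫ * H u = op k A α H x := by
  rw [Finset.sum_congr rfl fun m _ => congrArg (α m * ·) (formW k hH x (pt m))]
  have hi : ∀ m ∈ A, Integrable (fun ξ : E d =>
      α m * (𝓕 (k : E d → ℂ) ξ * (e ⟪x, ξ + pt m⟫ * bw H (ξ + pt m)))) := by
    intro m _
    refine Integrable.const_mul ?_ _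
    have h2 : (fun ξ : E d => 𝓕 (k : E d → ℂ) ξ * (e ⟪x, ξ + pt m⟫ * bw H (ξ + pt m))) =
        fun ξ => (e ⟪x, ξ + pt m⟫ * bw H (ξ + pt m)) * 𝓕 (k : E d → ℂ) ξ := by
      funext ξ
      ring
    rw [h2]
    refine int_bdd (c := ∫ u, ‖H u‖) (int_fK k) ?_ fun ξ => ?_
    · exact (((cont_er x).comp (continuous_id.add continuous_const)).mul
        ((cont_bw hH).comp (continuous_id.add continuous_const))).aestronglyMeasurable
    · rw [norm_mul, norm_e, one_mul]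
      exact bd_bw _ _
  have h3 : ∀ m ∈ A, α m * ∫ ξ, 𝓕 (k : E d → ℂ) ξ *
        (e ⟪x, ξ + pt m⟫ * bw H (ξ + pt m)) =
      ∫ ξ, α m * (𝓕 (k : E d → ℂ) ξ * (e ⟪x, ξ + pt m⟫ * bw H (ξ + pt m))) :=
    fun m _ => (integral_const_mul _ _).symm
  rw [Finset.sum_congr rfl h3, ← integral_finsetSum A hi]
  unfold op
  refine integral_congr_ae (Filter.Eventually.of_forall fun ξ => ?_)
  show ∑ m ∈ A, α m * (𝓕 (k : E d → ℂ) ξ * (e ⟪x, ξ + pt m⟫ * bw H (ξ + pt m))) =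
    𝓕 (k : E d → ℂ) ξ * (e ⟪x, ξ⟫ * tp A (fun m => α m * bw H (ξ + pt m)) x)
  unfold tp
  rw [Finset.mul_sum, Finset.mul_sum]
  refine Finset.sum_congr rfl fun m _ => ?_
  rw [inner_add_right, e_add]
  ring

theorem tpw_cont {H : E d → ℂ} (hH : Integrable H) (A : Finset (Fin d → ℤ))
    (α : (Fin d → ℤ) → ℂ) :
    Continuous fun z : E d × E d => tp A (fun m => α m * bw H (z.2 + pt m)) z.1 := by
  unfold tp
  exact continuous_finsetSum _ fun m _ =>
    (continuous_const.mul ((cont_bw hH).comp (continuous_snd.add continuous_const))).mul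
      ((cont_ch m).comp continuous_fst)

theorem op_meas (k : 𝓢(E d, ℂ)) {H : E d → ℂ} (hH : Integrable H) (A : Finset (Fin d → ℤ))
    (α : (Fin d → ℤ) → ℂ) : Measurable (op k A α H) := by
  have hc : Continuous fun z : E d × E d => 𝓕 (k : E d → ℂ) z.2 *
      (e ⟪z.1, z.2⟫ * tp A (fun m => α m * bw H (z.2 + pt m)) z.1) :=
    ((cont_fK k).comp continuous_snd).mul
      ((cont_e.comp (continuous_fst.inner continuous_snd)).mul (tpw_cont hH A α))
  exact (hc.stronglyMeasurable.integral_prod_right (ν := volume)).measurable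

theorem pww (k : 𝓢(E d, ℂ)) {H : E d → ℂ} (hH : Integrable H) (x : E d)
    (A : Finset (Fin d → ℤ)) (α : (Fin d → ℤ) → ℂ) {p : ℝ} (hp : 1 ≤ p) :
    ‖op k A α H x‖ₑ ^ p ≤
      (∫⁻ ξ : E d, ‖𝓕 (k : E d → ℂ) ξ‖ₑ) ^ (p - 1) * ∫⁻ ξ : E d, ‖𝓕 (k : E d → ℂ) ξ‖ₑ *
        ‖tp A (fun m => α m * bw H (ξ + pt m)) x‖ₑ ^ p := by
  have hm : Measurable fun ξ : E d => tp A (fun m => α m * bw H (ξ + pt m)) x := by
    unfold tp
    refine Continuous.measurable ?_
    exact continuous_finsetSum _ fun m _ => (continuous_const.mul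
      ((cont_bw hH).comp (continuous_id.add continuous_const))).mul continuous_const
  unfold op
  refine le_trans (ENNReal.rpow_le_rpow (enorm_integral_le_lintegral_enorm _) (by linarith)) ?_
  have h2 : ∫⁻ ξ : E d, ‖𝓕 (k : E d → ℂ) ξ * (e ⟪x, ξ⟫ *
      tp A (fun m => α m * bw H (ξ + pt m)) x)‖ₑ = ∫⁻ ξ : E d, ‖𝓕 (k : E d → ℂ) ξ‖ₑ *
        ‖tp A (fun m => α m * bw H (ξ + pt m)) x‖ₑ := by
    refine lintegral_congr fun ξ => ?_
    rw [enorm_mul, enorm_mul, enorm_e, one_mul]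
  rw [h2]
  exact Pool.Agent.N558.LS.jensen volume _ (fK_meas k) _ hm hp

/-- the estimate for one kernel -/
theorem one (k : 𝓢(E d, ℂ)) {H : E d → ℂ} (hH : Integrable H) (z : E d)
    (A : Finset (Fin d → ℤ)) (α : (Fin d → ℤ) → ℂ) {p Λ : ℝ} (hp : 2 ≤ p) (hL : Lam p Λ A α)
    {N : ℝ≥0∞} (hN : ∀ ξ : E d, ∑ m ∈ A, ‖bw H (ξ + pt m)‖ₑ ^ (2 : ℝ) ≤ N) :
    ∫⁻ x in cu 1 z, ‖op k A α H x‖ₑ ^ p ≤
      (∫⁻ ξ : E d, ‖𝓕 (k : E d → ℂ) ξ‖ₑ) ^ (p - 1) * (∫⁻ ξ : E d, ‖𝓕 (k : E d → ℂ) ξ‖ₑ) *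
        (3 ^ d * (ENNReal.ofReal (Λ ^ p) * N ^ (p / 2))) := by
  refine (setLIntegral_mono' (cu_meas 1 z) fun x _ =>
    pww k hH x A α (p := p) (by linarith)).trans ?_
  rw [lintegral_const_mul' _ _ (ENNReal.rpow_ne_top_of_nonneg (by linarith) (fK_top k)), mul_assoc]
  refine mul_le_mul' le_rfl ?_
  rw [lintegral_lintegral_swap]
  · rw [← lintegral_mul_const _ (fK_meas k)]
    refine lintegral_mono fun ξ => ?_
    rw [lintegral_const_mul' _ _ enorm_ne_top]
    gcongr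
    refine (lam_cu hL (fun m => bw H (ξ + pt m)) z).trans ?_
    gcongr
    exact hN ξ
  · refine Measurable.aemeasurable ?_
    exact ((fK_meas k).comp measurable_snd).mul
      ((tpw_cont hH A α).measurable.enorm.pow_const _)

/-- the formula for a decomposed kernel -/
theorem formP (K : 𝓢(E d, ℂ)) {F : E d → ℂ} (hF : Integrable F) (x z : E d)
    (A : Finset (Fin d → ℤ)) (α : (Fin d → ℤ) → ℂ) {n B : ℕ} (P : Fin n → E d → ℂ)
    (k : Fin n → 𝓢(E d, ℂ)) (hP : ∀ x v : E d,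
      K v * (((1 + ‖x - v‖ ^ 2) ^ B : ℝ) : ℂ) = ∑ i, P i x * k i v)
    (hH : Integrable fun u => inv F u * wB B z u) :
    inv (fun ξ => psia K A α ξ * F ξ) x =
      ∑ i, P i (x - z) * op (k i) A α (fun u => inv F u * wB B z u) x := by
  have h1 : inv (fun ξ => psia K A α ξ * F ξ) x =
      ∑ m ∈ A, α m * inv (fun ξ => 𝓕 (K : E d → ℂ) (ξ - pt m) * F ξ) x := by
    simp only [inv_eq]
    have hi : ∀ m ∈ A, Integrable (fun ξ : E d =>
        α m * (e ⟪x, ξ⟫ * (𝓕 (K : E d → ℂ) (ξ - pt m) * F ξ))) := by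
      intro m _
      refine Integrable.const_mul ?_ _
      refine int_bdd (c := 1) ?_ (cont_er x).aestronglyMeasurable fun ξ => (norm_e _).le
      refine int_bdd (c := ∫ y, ‖K y‖) hF ?_ fun ξ => bd_fK K _
      exact ((cont_fK K).comp (continuous_id.sub continuous_const)).aestronglyMeasurable
    have h2 : ∀ m ∈ A, α m * ∫ ξ, e ⟪x, ξ⟫ * (𝓕 (K : E d → ℂ) (ξ - pt m) * F ξ) =
        ∫ ξ, α m * (e ⟪x, ξ⟫ * (𝓕 (K : E d → ℂ) (ξ - pt m) * F ξ)) :=
      fun m _ => (integral_const_mul _ _).symm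
    rw [Finset.sum_congr rfl h2, ← integral_finsetSum A hi]
    refine integral_congr_ae (Filter.Eventually.of_forall fun ξ => ?_)
    show e ⟪x, ξ⟫ * (psia K A α ξ * F ξ) =
      ∑ m ∈ A, α m * (e ⟪x, ξ⟫ * (𝓕 (K : E d → ℂ) (ξ - pt m) * F ξ))
    unfold psia
    rw [Finset.sum_mul, Finset.mul_sum]
    refine Finset.sum_congr rfl fun m _ => ?_
    ring
  have h2 : ∀ p : E d, inv (fun ξ => 𝓕 (K : E d → ℂ) (ξ - p) * F ξ) x =
      ∑ i, P i (x - z) * ∫ u, (k i) (x - u) * e ⟪x - u, p⟫ * (inv F u * wB B z u) := by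
    intro p
    rw [step1 K hF p x]
    have h3 : ∫ y, K y * e ⟪y, p⟫ * inv F (x - y) = ∫ u, K (x - u) * e ⟪x - u, p⟫ * inv F u := by
      rw [← integral_sub_left_eq_self (fun y => K y * e ⟪y, p⟫ * inv F (x - y)) volume x]
      refine integral_congr_ae (Filter.Eventually.of_forall fun u => ?_)
      show K (x - u) * e ⟪x - u, p⟫ * inv F (x - (x - u)) = K (x - u) * e ⟪x - u, p⟫ * inv F u
      rw [sub_sub_cancel]
    have hi : ∀ i ∈ (Finset.univ : Finset (Fin n)), Integrable fun u =>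
        P i (x - z) * ((k i) (x - u) * e ⟪x - u, p⟫ * (inv F u * wB B z u)) := by
      intro i _
      refine Integrable.const_mul ?_ _
      obtain ⟨c, hc⟩ : ∃ c : ℝ, ∀ y, ‖k i y‖ ≤ c :=
        ⟨_, fun y => SchwartzMap.norm_le_seminorm ℝ (k i) y⟩
      refine int_bdd (c := c) hH ?_ fun u => ?_
      · refine Continuous.aestronglyMeasurable ?_
        exact ((k i).continuous.comp (continuous_const.sub continuous_id)).mul
          (cont_e.comp ((continuous_const.sub continuous_id).inner continuous_const))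
      · rw [norm_mul, norm_e, mul_one]
        exact hc _
    rw [h3, Finset.sum_congr rfl fun i _ => (integral_const_mul (P i (x - z)) _).symm,
      ← integral_finsetSum _ hi]
    refine integral_congr_ae (Filter.Eventually.of_forall fun u => ?_)
    show K (x - u) * e ⟪x - u, p⟫ * inv F u =
      ∑ i, P i (x - z) * ((k i) (x - u) * e ⟪x - u, p⟫ * (inv F u * wB B z u))
    have h4 := hP (x - z) (x - u)
    rw [show x - z - (x - u) = u - z by abel] at h4
    have h5 : ((((1 + ‖u - z‖ ^ 2) ^ B : ℝ)) : ℂ) ≠ 0 := by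
      rw [Complex.ofReal_ne_zero]
      positivity
    have h6 : K (x - u) = (∑ i, P i (x - z) * (k i) (x - u)) * wB B z u := by
      rw [← h4]
      unfold wB
      rw [mul_assoc, mul_inv_cancel₀ h5, mul_one]
    rw [h6, Finset.sum_mul, Finset.sum_mul, Finset.sum_mul]
    refine Finset.sum_congr rfl fun i _ => ?_
    ring
  rw [h1, Finset.sum_congr rfl fun m _ => congrArg (α m * ·) (h2 (pt m))]
  simp only [Finset.mul_sum]
  rw [Finset.sum_comm]
  refine Finset.sum_congr rfl fun i _ => ?_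
  rw [← formWA (k i) hH x A α, Finset.mul_sum]
  refine Finset.sum_congr rfl fun m _ => ?_
  ring

end

theorem t_llg (h1 : S_PD) (h2 : S_BW) : Pool.Agent.N303.LS.S_LLG := by
  intro d M p hp K
  have hp0 : 0 < p := by linarith
  obtain ⟨B, C, hC, hB, hbw⟩ := h2 d M
  obtain ⟨n, P, k, hPc, hP⟩ := h1 d B K
  have hD : ∀ i, ∃ D : ℝ, ∀ y ∈ cu 1 (0 : E d), ‖P i y‖ ≤ D := fun i =>
    (cu_compact 1 (0 : E d)).exists_bound_of_continuousOn (hPc i).continuousOn
  choose D hD using hD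
  obtain ⟨κ, hκ⟩ : ∃ κ : Fin n → ℝ≥0∞, κ = fun i => ∫⁻ ξ : E d, ‖𝓕 (k i : E d → ℂ) ξ‖ₑ := ⟨_, rfl⟩
  have hκt : ∀ i, κ i ≠ ⊤ := fun i => by rw [hκ]; exact fK_top (k i)
  obtain ⟨C', hC'⟩ : ∃ C' : ℝ≥0∞, C' = (n : ℝ≥0∞) ^ (p - 1) * ∑ i : Fin n,
    ENNReal.ofReal (D i) ^ p * (κ i ^ (p - 1) * κ i * 3 ^ d * ENNReal.ofReal C ^ (p / 2)) :=
    ⟨_, rfl⟩
  have hC't : C' ≠ ⊤ := by
    rw [hC']
    refine ENNReal.mul_ne_top (ENNReal.rpow_ne_top_of_nonneg (by linarith) (by simp)) ?_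
    refine ENNReal.sum_ne_top.2 fun i _ => ?_
    refine ENNReal.mul_ne_top (ENNReal.rpow_ne_top_of_nonneg (by linarith) ENNReal.ofReal_ne_top) ?_
    refine ENNReal.mul_ne_top (ENNReal.mul_ne_top (ENNReal.mul_ne_top
      (ENNReal.rpow_ne_top_of_nonneg (by linarith) (hκt i)) (hκt i)) (by finiteness))
      (ENNReal.rpow_ne_top_of_nonneg (by linarith) ENNReal.ofReal_ne_top)
  refine ⟨C'.toReal + 1, by positivity, ?_⟩
  intro S α Λ hΛ hL F hF z
  have hcF := cont_inv hF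
  have hbF : ∀ x, ‖inv F x‖ ≤ ∫ ξ, ‖F ξ‖ := by
    intro x
    rw [inv_eq]
    refine (norm_integral_le_integral_norm _).trans (le_of_eq ?_)
    refine integral_congr_ae (Filter.Eventually.of_forall fun y => ?_)
    show ‖e ⟪x, y⟫ * F y‖ = ‖F y‖
    rw [norm_mul, norm_e, one_mul]
  have hH : Integrable fun u => inv F u * wB B z u :=
    int_bdd (c := ∫ ξ, ‖F ξ‖) (wB_int hB z) hcF.aestronglyMeasurable hbF
  have hset : {x : E d | ∀ i, |x i - z i| ≤ 1} = cu 1 z := by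
    ext x
    unfold cu
    simp
  rw [hset]
  have hN : ∀ ξ : E d, ∑ m ∈ S, ‖bw (fun u => inv F u * wB B z u) (ξ + pt m)‖ₑ ^ (2 : ℝ) ≤
      ENNReal.ofReal C * nrg M (inv F) z := by
    intro ξ
    refine le_trans (le_of_eq ?_) (hbw (inv F) hcF ⟨_, hbF⟩ z ξ S)
    refine Finset.sum_congr rfl fun m _ => ?_
    congr 2
    unfold bw
    refine integral_congr_ae (Filter.Eventually.of_forall fun u => ?_)
    show inv F u * wB B z u * conj (e ⟪u, ξ + pt m⟫) = _
    rw [conj_e]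
    unfold wB e
    rw [show 2 * Real.pi * -⟪u, ξ + pt m⟫ = -(2 * Real.pi * ⟪u, ξ + pt m⟫) by ring]
  obtain ⟨H, hHd⟩ : ∃ H : E d → ℂ, H = fun u => inv F u * wB B z u := ⟨_, rfl⟩
  rw [← hHd] at hH hN
  have h3 : ∀ x ∈ cu 1 z, ‖inv (fun ξ => psia K S α ξ * F ξ) x‖ₑ ^ p ≤
      (n : ℝ≥0∞) ^ (p - 1) * ∑ i : Fin n, ENNReal.ofReal (D i) ^ p * ‖op (k i) S α H x‖ₑ ^ p := by
    intro x hx
    have h4 := formP K hF x z S α P k hP (by rw [← hHd]; exact hH)
    rw [← hHd] at h4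
    rw [h4]
    have hxz : x - z ∈ cu 1 (0 : E d) := by
      intro j
      have := hx j
      simpa using this
    calc ‖∑ i, P i (x - z) * op (k i) S α H x‖ₑ ^ p
        ≤ (∑ i, ENNReal.ofReal (D i) * ‖op (k i) S α H x‖ₑ) ^ p := by
          refine ENNReal.rpow_le_rpow ?_ hp0.le
          refine (enorm_sum_le _ _).trans (Finset.sum_le_sum fun i _ => ?_)
          rw [enorm_mul]
          refine mul_le_mul' ?_ le_rfl
          rw [← ofReal_norm]
          exact ENNReal.ofReal_le_ofReal (hD i _ hxz)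
      _ ≤ ((Finset.univ : Finset (Fin n)).card : ℝ≥0∞) ^ (p - 1) *
          ∑ i, (ENNReal.ofReal (D i) * ‖op (k i) S α H x‖ₑ) ^ p :=
          ENNReal.rpow_sum_le_const_mul_sum_rpow _ _ (by linarith)
      _ = _ := by
          rw [Finset.card_univ, Fintype.card_fin]
          congr 1
          refine Finset.sum_congr rfl fun i _ => ?_
          rw [ENNReal.mul_rpow_of_nonneg _ _ hp0.le]
  have h5 : ∫⁻ x in cu 1 z, ‖inv (fun ξ => psia K S α ξ * F ξ) x‖ₑ ^ p ≤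
      (n : ℝ≥0∞) ^ (p - 1) * ∑ i : Fin n, ENNReal.ofReal (D i) ^ p *
        (κ i ^ (p - 1) * κ i * (3 ^ d * (ENNReal.ofReal (Λ ^ p) *
          (ENNReal.ofReal C * nrg M (inv F) z) ^ (p / 2)))) := by
    refine (setLIntegral_mono' (cu_meas 1 z) h3).trans ?_
    rw [lintegral_const_mul' _ _ (ENNReal.rpow_ne_top_of_nonneg (by linarith) (by simp)),
      lintegral_finsetSum _ fun i _ => ((op_meas (k i) hH S α).enorm.pow_const p).const_mul _]
    refine mul_le_mul' le_rfl (Finset.sum_le_sum fun i _ => ?_)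
    rw [lintegral_const_mul' _ _ (ENNReal.rpow_ne_top_of_nonneg (by linarith) ENNReal.ofReal_ne_top)]
    refine mul_le_mul' le_rfl ?_
    rw [hκ]
    exact one (k i) hH z S α hp hL hN
  refine h5.trans ?_
  have h6 : (n : ℝ≥0∞) ^ (p - 1) * ∑ i : Fin n, ENNReal.ofReal (D i) ^ p *
        (κ i ^ (p - 1) * κ i * (3 ^ d * (ENNReal.ofReal (Λ ^ p) *
          (ENNReal.ofReal C * nrg M (inv F) z) ^ (p / 2)))) =
      C' * ENNReal.ofReal (Λ ^ p) * nrg M (inv F) z ^ (p / 2) := by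
    rw [hC', ENNReal.mul_rpow_of_nonneg _ _ (by linarith), mul_assoc, mul_assoc, Finset.sum_mul]
    congr 1
    refine Finset.sum_congr rfl fun i _ => ?_
    ring
  rw [h6]
  have h7 : C' ≤ ENNReal.ofReal (C'.toReal + 1) := by
    calc C' = ENNReal.ofReal C'.toReal := (ENNReal.ofReal_toReal hC't).symm
      _ ≤ _ := ENNReal.ofReal_le_ofReal (by linarith)
  rw [ENNReal.ofReal_mul (by positivity)]
  gcongr

end Pool.Agent.N170.LS
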